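import Mathlib
import Pool.Agent.H59.SD4

set_option autoImplicit false

namespace Pool.Agent.Results.MP_6c5a21_nt.Sanders

/-- For every `C > 0` there are `K, N` such that for all `n ≥ N` every `A ⊆ F_2^n` of density
`> 1/2 - C/√n` has `A + A` containing a linear subspace of codimension at most `K`. -/
theorem result : ∀ C : ℝ, 0 < C → ∃ K N : ℕ, ∀ n : ℕ, N ≤ n →
    ∀ A : Finset (Fin n → ZMod 2),
      (1 / 2 : ℝ) - C / Real.sqrt (n : ℝ) < (A.card : ℝ) / (2 : ℝ) ^ n →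
        ∃ V : Submodule (ZMod 2) (Fin n → ZMod 2),
          n ≤ Module.finrank (ZMod 2) V + K ∧ ∀ v ∈ V, ∃ a ∈ A, ∃ b ∈ A, a + b = v := by
  intro C hC
  obtain ⟨K, hK⟩ := Pool.Agent.H59.SD.near_half2 C hC
  refine ⟨K, ⌈4 * C ^ 2⌉₊ + 1, fun n hn A h => ?_⟩
  have h1 : 4 * C ^ 2 ≤ (n : ℝ) := (Nat.le_ceil _).trans (by exact_mod_cast (by omega))
  have hn0 : (0 : ℝ) < n := by exact_mod_cast (by omega : 0 < n)
  have h2 : 2 * C ≤ Real.sqrt n := Real.le_sqrt_of_sq_le (by linarith)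
  have h3 : C / Real.sqrt n ≤ 1 / 2 := by
    rw [div_le_iff₀ (Real.sqrt_pos.2 hn0)]; linarith
  have hA : A.Nonempty := by
    rcases A.eq_empty_or_nonempty with rfl | h4
    · simp only [Finset.card_empty, Nat.cast_zero, zero_div] at h; linarith
    · exact h4
  obtain ⟨V, h4, h5⟩ := hK n (by omega) A hA h.le
  exact ⟨V, h4, fun v hv => Finset.mem_add.1 (h5 v hv)⟩

end Pool.Agent.Results.MP_6c5a21_nt.Sanders
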